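import Pool.Agent.Helper81.LT.Inc

/-! # Packet QPR of MP_c20641_lc -/

set_option autoImplicit false

namespace Pool.Agent.Helper27.LT

open Pool.Agent.Helper81.LT
open Nat.Partrec (Code)

section General

variable {α : Type} [Primcodable α]

theorem pimp {p q : α → Prop} (hp : PrimrecPred p) (hq : PrimrecPred q) :
    PrimrecPred (fun a => p a → q a) :=
  (hp.not.or hq).of_eq fun a => by tauto

theorem piff {p q : α → Prop} (hp : PrimrecPred p) (hq : PrimrecPred q) :
    PrimrecPred (fun a => p a ↔ q a) :=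
  ((pimp hp hq).and (pimp hq hp)).of_eq fun a => by tauto

theorem pmem {P : α → ℕ → Prop} {L : α → List ℕ} (hL : Primrec L)
    (hP : PrimrecPred (fun p : α × ℕ => P p.1 p.2)) : PrimrecPred (fun a => ∀ x ∈ L a, P a x) := by
  have h1 : PrimrecRel (fun (x : ℕ) (a : α) => P a x) :=
    (hP.comp (Primrec.pair Primrec.snd Primrec.fst) : PrimrecPred
      (fun p : ℕ × α => P p.2 p.1)).primrecRel
  exact h1.forall_mem_list.comp hL Primrec.id

theorem pball {P : α → ℕ → Prop} {f : α → ℕ} (hf : Primrec f)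
    (hP : PrimrecPred (fun p : α × ℕ => P p.1 p.2)) : PrimrecPred (fun a => ∀ x < f a, P a x) :=
  (pmem (Primrec.list_range.comp hf) hP).of_eq fun a => by simp

theorem plt {f g : α → ℕ} (hf : Primrec f) (hg : Primrec g) : PrimrecPred (fun a => f a < g a) :=
  Primrec.nat_lt.comp hf hg

theorem ple {f g : α → ℕ} (hf : Primrec f) (hg : Primrec g) : PrimrecPred (fun a => f a ≤ g a) :=
  Primrec.nat_le.comp hf hg

theorem pgetD {L : α → List ℕ} {f : α → ℕ} (hL : Primrec L) (hf : Primrec f) :
    Primrec (fun a => (L a).getD (f a) 0) :=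
  (Primrec.list_getD 0).comp hL hf

theorem pofList {f : α → ℕ} (hf : Primrec f) :
    Primrec (fun a => (Denumerable.ofNat (List ℕ) (f a))) :=
  (Primrec.ofNat (List ℕ)).comp hf

theorem pofCode {f : α → ℕ} (hf : Primrec f) :
    Primrec (fun a => (Denumerable.ofNat Code (f a))) :=
  (Primrec.ofNat Code).comp hf

theorem padd {f g : α → ℕ} (hf : Primrec f) (hg : Primrec g) : Primrec (fun a => f a + g a) :=
  Primrec.nat_add.comp hf hg

theorem pmul {f g : α → ℕ} (hf : Primrec f) (hg : Primrec g) : Primrec (fun a => f a * g a) :=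
  Primrec.nat_mul.comp hf hg

theorem pconst (n : ℕ) : Primrec (fun _ : α => n) := Primrec.const n

theorem pblk {L : α → List ℕ} {i k : α → ℕ} (hL : Primrec L) (hi : Primrec i) (hk : Primrec k) :
    Primrec (fun a => blk (fun j => (L a).getD j 0) (i a) (k a)) := by
  unfold blk
  refine Primrec.list_map (Primrec.list_range.comp hk) ?_
  exact pgetD (hL.comp Primrec.fst) (padd (hi.comp Primrec.fst) Primrec.snd)

theorem preplicate {k f : α → ℕ} (hk : Primrec k) (hf : Primrec f) :
    Primrec (fun a => List.replicate (k a) (f a)) := by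
  refine Primrec.of_eq (Primrec.list_map (g := fun a _ => f a) (Primrec.list_range.comp hk)
    (hf.comp Primrec.fst)) ?_
  intro a
  simp [List.map_const']

theorem pevaln {y n : α → ℕ} {c : α → Code} (hy : Primrec y) (hc : Primrec c) (hn : Primrec n) :
    Primrec (fun a => Code.evaln (y a) (c a) (n a)) :=
  Code.primrec_evaln.comp (Primrec.pair (Primrec.pair hy hc) hn)

theorem popt {A B : α → Option ℕ} (hA : Primrec A) (hB : Primrec B) :
    PrimrecPred (fun a => ∃ o ∈ A a, ∃ o' ∈ B a, (o = 1 ↔ o' = 1)) := by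
  have h1 : PrimrecPred (fun a => (A a).isSome = true) :=
    Primrec.eq.comp (Primrec.option_isSome.comp hA) (Primrec.const true)
  have h2 : PrimrecPred (fun a => (B a).isSome = true) :=
    Primrec.eq.comp (Primrec.option_isSome.comp hB) (Primrec.const true)
  have h3 : PrimrecPred (fun a => A a = some 1) := Primrec.eq.comp hA (Primrec.const (some 1))
  have h4 : PrimrecPred (fun a => B a = some 1) := Primrec.eq.comp hB (Primrec.const (some 1))
  refine (h1.and (h2.and (piff h3 h4))).of_eq fun a => ?_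
  rcases A a with _ | x <;> rcases B a with _ | y <;> simp

end General

theorem primB_primrec : Primrec primB := by
  have h := Code.primrec_recOn (α := Code) (σ := Bool) (c := id) Primrec.id
    (z := fun _ => true) (Primrec.const true) (s := fun _ => true) (Primrec.const true)
    (l := fun _ => true) (Primrec.const true) (r := fun _ => true) (Primrec.const true)
    (pr := fun _ _ _ a b => a && b) (Primrec.and.comp
      (Primrec.fst.comp (Primrec.snd.comp (Primrec.snd.comp Primrec.snd)))
      (Primrec.snd.comp (Primrec.snd.comp (Primrec.snd.comp Primrec.snd))))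
    (co := fun _ _ _ a b => a && b) (Primrec.and.comp
      (Primrec.fst.comp (Primrec.snd.comp (Primrec.snd.comp Primrec.snd)))
      (Primrec.snd.comp (Primrec.snd.comp (Primrec.snd.comp Primrec.snd))))
    (pc := fun _ _ _ a b => a && b) (Primrec.and.comp
      (Primrec.fst.comp (Primrec.snd.comp (Primrec.snd.comp Primrec.snd)))
      (Primrec.snd.comp (Primrec.snd.comp (Primrec.snd.comp Primrec.snd))))
    (rf := fun _ _ _ => false) (Primrec.const false)
  refine Primrec.of_eq h ?_
  intro c
  simp only [id]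
  induction c with
  | zero => rfl
  | succ => rfl
  | left => rfl
  | right => rfl
  | pair c d hc hd => simp only [primB, ← hc, ← hd]
  | comp c d hc hd => simp only [primB, ← hc, ← hd]
  | prec c d hc hd => simp only [primB, ← hc, ← hd]
  | rfind' c hc => rfl

theorem qpr : QPR := by
  have k : Primrec (fun p : ℕ × ℕ × ℕ × ℕ => p.1) := Primrec.fst
  have b : Primrec (fun p : ℕ × ℕ × ℕ × ℕ => p.2.1) := Primrec.fst.comp Primrec.snd
  have x : Primrec (fun p : ℕ × ℕ × ℕ × ℕ => p.2.2.1) :=
    Primrec.fst.comp (Primrec.snd.comp Primrec.snd)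
  have y : Primrec (fun p : ℕ × ℕ × ℕ × ℕ => p.2.2.2) :=
    Primrec.snd.comp (Primrec.snd.comp Primrec.snd)
  have X := pofList x
  unfold QPR QQ
  dsimp only
  refine PrimrecPred.and (ple k (pgetD X (pconst 0))) ?_
  refine PrimrecPred.and (pball (padd (pmul (pconst 2) k) (pconst 1)) ?_) ?_
  · have X' := X.comp (Primrec.fst (α := ℕ × ℕ × ℕ × ℕ) (β := ℕ))
    have i : Primrec (fun p : (ℕ × ℕ × ℕ × ℕ) × ℕ => p.2) := Primrec.snd
    exact ple (pmul (padd (pgetD X' i) (pconst 2)) (padd (pgetD X' i) (pconst 2)))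
      (pgetD X' (padd i (pconst 1)))
  refine PrimrecPred.and (ple (pgetD X (padd (pmul (pconst 2) k) (pconst 1))) b) ?_
  refine PrimrecPred.and (plt (Primrec.encode.comp
    (preplicate k (pgetD X (padd (pmul (pconst 2) k) (pconst 1))))) y) ?_
  refine pball k ?_
  have c1 := pofCode (Primrec.snd : Primrec (fun p : (ℕ × ℕ × ℕ × ℕ) × ℕ => p.2))
  refine pimp (Primrec.eq.comp (primB_primrec.comp c1) (Primrec.const true)) ?_
  have p1 : Primrec (fun p : (ℕ × ℕ × ℕ × ℕ) × ℕ => p.1) := Primrec.fst
  refine pball (k.comp p1) ?_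
  have p2 : Primrec (fun p : ((ℕ × ℕ × ℕ × ℕ) × ℕ) × ℕ => p.1) := Primrec.fst
  refine pball (y.comp (p1.comp p2)) ?_
  have p3 : Primrec (fun p : (((ℕ × ℕ × ℕ × ℕ) × ℕ) × ℕ) × ℕ => p.1) := Primrec.fst
  have u : Primrec (fun p : (((ℕ × ℕ × ℕ × ℕ) × ℕ) × ℕ) × ℕ => p.2) := Primrec.snd
  have i : Primrec (fun p : (((ℕ × ℕ × ℕ × ℕ) × ℕ) × ℕ) × ℕ => p.1.2) :=
    Primrec.snd.comp Primrec.fst
  have c3 := c1.comp (p2.comp p3)
  have k3 := k.comp (p1.comp (p2.comp p3))
  have y3 := y.comp (p1.comp (p2.comp p3))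
  have X3 := X.comp (p1.comp (p2.comp p3))
  refine pimp (ple (Primrec.list_length.comp (pofList u)) k3) ?_
  refine pimp (pmem (pofList u) ?_) ?_
  · exact plt Primrec.snd (pgetD (X3.comp Primrec.fst) (i.comp Primrec.fst))
  · exact popt (pevaln y3 c3 (Primrec₂.natPair.comp u (Primrec.encode.comp
      (pblk X3 (padd i (pconst 1)) k3)))) (pevaln y3 c3 (Primrec₂.natPair.comp u
      (Primrec.encode.comp (pblk X3 (padd i (pconst 2)) k3))))

end Pool.Agent.Helper27.LT
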