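import Pool.Agent.Helper81.LT.Mod

/-! # Packet SEQ of MP_c20641_lc -/

set_option autoImplicit false

namespace Pool.Agent.Helper27.LT

open FirstOrder Language Pool.Agent.Helper81.LT

attribute [local instance] stdStr

theorem countable_defE (hc : CNT) (M : Type) [CommSemiring M] [LinearOrder M] [Countable M] :
    Countable {Θ : Setoid M // DefE Θ} := by
  have h1 : Countable (LA.Formula (Fin 2 ⊕ M)) := hc (Fin 2 ⊕ M) inferInstance
  have h2 : ∀ Θ : {Θ : Setoid M // DefE Θ}, ∃ φ : LA.Formula (Fin 2 ⊕ M), ∀ v : Fin 2 → M,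
      φ.Realize (Sum.elim v id) ↔ Θ.1 (v 0) (v 1) := fun Θ => Θ.2
  choose φ hφ using h2
  refine Function.Injective.countable (f := φ) ?_
  intro Θ Θ' h
  apply Subtype.ext
  apply Setoid.ext
  intro a b
  have h3 := hφ Θ ![a, b]
  have h4 := hφ Θ' ![a, b]
  rw [h] at h3
  exact h3.symm.trans h4

theorem seq (h2 : STEP2) (hc : CNT) : SEQ := by
  intro Λ _ _ _ hΛ M _ _ _ _ _ hM t ht
  have hcount := countable_defE hc M
  have hne : Nonempty {Θ : Setoid M // DefE Θ} :=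
    ⟨⟨⊤, (Dfn.prop (M := M) (α := Fin 2) True).congr fun v => by simp⟩⟩
  obtain ⟨e, he⟩ := exists_surjective_nat {Θ : Setoid M // DefE Θ}
  have hstep : ∀ (W : {D : M → Prop // DefS D ∧ Rich t D}) (Θ : {Θ : Setoid M // DefE Θ}),
      ∃ W' : {D : M → Prop // DefS D ∧ Rich t D}, (∀ u, W'.1 u → W.1 u) ∧
        ∃ s : Λ, ∀ u v, W'.1 u → W'.1 v → (Θ.1 u v ↔ s ≤ t u v) := by
    intro W Θ
    obtain ⟨D', h3, h4, h5, s, h6⟩ := h2 Λ hΛ M hM t ht W.1 W.2.1 W.2.2 Θ.1 Θ.2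
    exact ⟨⟨D', h4, h5⟩, h3, s, h6⟩
  choose nxt hn1 hn2 using hstep
  have hstart : DefS (fun _ : M => True) ∧ Rich t (fun _ : M => True) :=
    ⟨Dfn.prop True, fun n => ⟨fun i => (i : M), fun _ _ => trivial, fun _ _ _ _ => rfl⟩⟩
  let W : ℕ → {D : M → Prop // DefS D ∧ Rich t D} :=
    fun n => Nat.rec ⟨fun _ => True, hstart⟩ (fun n w => nxt w (e n)) n
  have hW : ∀ n, W (n + 1) = nxt (W n) (e n) := fun n => rfl
  refine ⟨fun n => (W n).1, ⟨?_, fun n => (W n).2.1, fun n => (W n).2.2, ?_⟩⟩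
  · intro n u hu
    exact hn1 (W n) (e n) u (by rw [← hW]; exact hu)
  · intro Θ hΘ
    obtain ⟨n, hn⟩ := he ⟨Θ, hΘ⟩
    obtain ⟨s, hs⟩ := hn2 (W n) (e n)
    refine ⟨n + 1, s, fun u v hu hv => ?_⟩
    have h7 := hs u v (by rw [← hW]; exact hu) (by rw [← hW]; exact hv)
    rw [hn] at h7
    exact h7

end Pool.Agent.Helper27.LT
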