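import Pool.Agent.Helper81.LT.Comb

/-! # Packet STEP of MP_c20641_lc -/

set_option autoImplicit false

namespace Pool.Agent.Helper27.LT

open Pool.Agent.Helper81.LT

universe u v

variable {Λ : Type u} [Lattice Λ] [BoundedOrder Λ]

theorem iso_comp (S T U : Sp Λ) (f : S.A → T.A) (g : T.A → U.A) (hf : IsIso S T f)
    (hg : IsIso T U g) : IsIso S U (fun x => g (f x)) := fun a b => by
  rw [hg, hf]

/-- iteration of requirements -/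
theorem iter {κ : Type v} [Finite κ] (Q : κ → (T : Sp Λ) → Setoid T.A → Prop) (z : κ → Λ)
    (pers : ∀ (k : κ) (T T' : Sp Λ) (i : T.A → T'.A), IsIso T T' i → ∀ ρ : Setoid T'.A,
      Q k T' ρ → Q k T (ρ.comap i))
    (ex : ∀ (k : κ) (T : Sp Λ) (p q : T.A), z k ≤ T.t p q → ∃ (T' : Sp Λ) (i : T.A → T'.A),
      IsIso T T' i ∧ ∀ ρ : Setoid T'.A, Resp T' ρ → Q k T' ρ → ρ (i p) (i q))
    (S : Sp Λ) : ∃ (T : Sp Λ) (i : S.A → T.A), IsIso S T i ∧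
      ∀ (k : κ) (p q : S.A), z k ≤ S.t p q → ∀ ρ : Setoid T.A, Resp T ρ → Q k T ρ →
        ρ (i p) (i q) := by
  have key : ∀ W : Set (κ × S.A × S.A), W.Finite → ∃ (T : Sp Λ) (i : S.A → T.A), IsIso S T i ∧
      ∀ w ∈ W, z w.1 ≤ S.t w.2.1 w.2.2 → ∀ ρ : Setoid T.A, Resp T ρ → Q w.1 T ρ →
        ρ (i w.2.1) (i w.2.2) := by
    intro W hW
    refine Set.Finite.induction_on W hW ?_ ?_
    · exact ⟨S, id, fun a b => rfl, fun w hw => absurd hw (Set.notMem_empty w)⟩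
    · intro w W' _ _ ih
      obtain ⟨T, i, hi, hT⟩ := ih
      by_cases hz : z w.1 ≤ S.t w.2.1 w.2.2
      · obtain ⟨T', j, hj, hT'⟩ := ex w.1 T (i w.2.1) (i w.2.2) (by rw [hi]; exact hz)
        refine ⟨T', fun x => j (i x), iso_comp S T T' i j hi hj, ?_⟩
        intro w' hw' hz' ρ hρ hQ
        rcases hw' with rfl | hw'
        · exact hT' ρ hρ hQ
        · have h1 : Resp T (ρ.comap j) := by
            intro a b hab
            exact hρ (j a) (j b) (by rw [hj]; exact hab)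
          exact hT w' hw' hz' (ρ.comap j) h1 (pers w'.1 T T' j hj ρ hQ)
      · refine ⟨T, i, hi, ?_⟩
        intro w' hw' hz' ρ hρ hQ
        rcases hw' with rfl | hw'
        · exact absurd hz' hz
        · exact hT w' hw' hz' ρ hρ hQ
  obtain ⟨T, i, hi, hT⟩ := key Set.univ Set.finite_univ
  exact ⟨T, i, hi, fun k p q hz ρ hρ hQ => hT (k, p, q) (Set.mem_univ _) hz ρ hρ hQ⟩

/-- the three point space -/
def three (x y : Λ) : Sp Λ where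
  A := Fin 3
  fin := inferInstance
  t := fun i j => ![![⊤, x, x ⊓ y], ![x, ⊤, y], ![x ⊓ y, y, ⊤]] i j
  refl := fun a => by fin_cases a <;> rfl
  symm := fun a b => by fin_cases a <;> fin_cases b <;> rfl
  tri := fun a b c => by
    fin_cases a <;> fin_cases b <;> fin_cases c <;> simp [inf_comm]

/-- the hypotheses of the requirements -/
def Qs (P : Sp Λ) : ((P.A × P.A) ⊕ (Λ × Λ)) → (T : Sp Λ) → Setoid T.A → Prop
  | Sum.inl ab, T, ρ => ∀ f, IsHom P T f → ρ (f ab.1) (f ab.2)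
  | Sum.inr xy, T, ρ => (∀ c d : T.A, xy.1 ≤ T.t c d → ρ c d) ∧
      (∀ c d : T.A, xy.2 ≤ T.t c d → ρ c d)

/-- the bounds of the requirements -/
def zs (P : Sp Λ) : ((P.A × P.A) ⊕ (Λ × Λ)) → Λ
  | Sum.inl ab => P.t ab.1 ab.2
  | Sum.inr xy => xy.1 ⊓ xy.2

theorem rel_top {T : Sp Λ} {ρ : Setoid T.A} (hρ : Resp T ρ) {a b : T.A} (h : T.t a b = ⊤) :
    ρ a b := hρ a b h

/-- going round the necklace -/
theorem chain {P T : Sp Λ} (hom : ∀ (_ : P.A → T.A), Prop) (a b : P.A) (f₀ f₁ f₂ : P.A → T.A)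
    (h₀ : hom f₀) (h₁ : hom f₁) (h₂ : hom f₂) (p q : T.A)
    (e₀ : T.t p (f₀ a) = ⊤) (e₁ : T.t (f₀ b) (f₁ a) = ⊤) (e₂ : T.t (f₁ b) (f₂ a) = ⊤)
    (e₃ : T.t (f₂ b) q = ⊤) (ρ : Setoid T.A) (hρ : Resp T ρ)
    (hQ : ∀ f, hom f → ρ (f a) (f b)) : ρ p q :=
  ρ.trans (hρ _ _ e₀) (ρ.trans (hQ f₀ h₀) (ρ.trans (hρ _ _ e₁) (ρ.trans (hQ f₁ h₁)
    (ρ.trans (hρ _ _ e₂) (ρ.trans (hQ f₂ h₂) (hρ _ _ e₃))))))

theorem step (Λ : Type u) [Lattice Λ] [BoundedOrder Λ] [Finite Λ] (h : NECK Λ) : STEP Λ := by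
  intro S P
  obtain ⟨T, i, hi, hT⟩ := iter (Qs P) (zs P) (by
    intro k T T' i hi ρ hQ
    rcases k with ab | xy
    · intro f hf
      exact hQ (fun x => i (f x)) (fun a b => by rw [hi]; exact hf a b)
    · exact ⟨fun c d hcd => hQ.1 (i c) (i d) (by rw [hi]; exact hcd),
        fun c d hcd => hQ.2 (i c) (i d) (by rw [hi]; exact hcd)⟩) (by
    intro k T p q hz
    rcases k with ab | xy
    · obtain ⟨T', j, f₀, f₁, f₂, hj, h₀, h₁, h₂, e₀, e₁, e₂, e₃⟩ := h T P ab.1 ab.2 p q hz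
      exact ⟨T', j, hj, fun ρ hρ hQ => chain (IsHom P T') ab.1 ab.2 f₀ f₁ f₂ h₀ h₁ h₂ (j p) (j q)
        e₀ e₁ e₂ e₃ ρ hρ hQ⟩
    · obtain ⟨T', j, f₀, f₁, f₂, hj, h₀, h₁, h₂, e₀, e₁, e₂, e₃⟩ :=
        h T (three xy.1 xy.2) (0 : Fin 3) (2 : Fin 3) p q hz
      refine ⟨T', j, hj, fun ρ hρ hQ => chain (IsHom (three xy.1 xy.2) T') (0 : Fin 3) (2 : Fin 3)
        f₀ f₁ f₂ h₀ h₁ h₂ (j p) (j q) e₀ e₁ e₂ e₃ ρ hρ ?_⟩
      intro f hf
      exact ρ.trans (hQ.1 _ _ (hf (0 : Fin 3) (1 : Fin 3))) (hQ.2 _ _ (hf (1 : Fin 3) (2 : Fin 3))))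
    S
  refine ⟨T, i, hi, fun ρ hρ => ⟨?_, ?_⟩⟩
  · intro a b hab p q hpq
    exact hT (Sum.inl (a, b)) p q hpq ρ hρ hab
  · intro x y hx hy p q hpq
    exact hT (Sum.inr (x, y)) p q hpq ρ hρ ⟨hx, hy⟩

end Pool.Agent.Helper27.LT
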